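import Mathlib
import Pool.Agent.H19.SSepE

namespace Pool.Agent.Results.MP_67c6ba_gt.RealNotSSep

open TopologicalSpace

/-- Every closed subgroup of the topological group `H` is separable in its subspace topology. -/
def ClosedSubgroupsSeparable (H : Type) [Group H] [TopologicalSpace H] : Prop :=
  ∀ K : Subgroup H, IsClosed (K : Set H) → SeparableSpace K

/-- The topological group `G` is S-separable: for every Hausdorff topological group `H` all of
whose closed subgroups are separable, all closed subgroups of `G × H` are separable. -/
def SSeparable (G : Type) [Group G] [TopologicalSpace G] : Prop :=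
  ∀ (H : Type) [Group H] [TopologicalSpace H] [IsTopologicalGroup H] [T2Space H],
    ClosedSubgroupsSeparable H → ClosedSubgroupsSeparable (G × H)

/-- The additive group of the reals (written multiplicatively) is not S-separable. -/
theorem result : ¬ SSeparable (Multiplicative ℝ) := by
  intro hS
  obtain ⟨H, _, _, _, _, hK, L, hL, hLs⟩ := Pool.Agent.H19.SSep.main_add
  have h1 : ClosedSubgroupsSeparable (Multiplicative H) := by
    intro K _
    have := hK (Subgroup.toAddSubgroup' K)
    let f : (Subgroup.toAddSubgroup' K) → K := fun x => ⟨Multiplicative.ofAdd (x : H), x.2⟩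
    have hf : Continuous f :=
      Continuous.subtype_mk (continuous_ofAdd.comp continuous_subtype_val) _
    have hfs : Function.Surjective f := fun y => ⟨⟨Multiplicative.toAdd (y : Multiplicative H), y.2⟩, rfl⟩
    exact hfs.denseRange.separableSpace hf
  have hT2 : T2Space (Multiplicative H) :=
    T2Space.of_injective_continuous (f := fun x : Multiplicative H => Multiplicative.toAdd x)
      Multiplicative.toAdd.injective continuous_toAdd
  have h2 := hS (Multiplicative H) h1
  let L' : Subgroup (Multiplicative ℝ × Multiplicative H) :=
    { carrier := {p | (Multiplicative.toAdd p.1, Multiplicative.toAdd p.2) ∈ L}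
      mul_mem' := fun {a b} ha hb => L.add_mem ha hb
      one_mem' := L.zero_mem
      inv_mem' := fun {a} ha => L.neg_mem ha }
  have hcont : Continuous (fun p : Multiplicative ℝ × Multiplicative H =>
      ((Multiplicative.toAdd p.1, Multiplicative.toAdd p.2) : ℝ × H)) :=
    (continuous_toAdd.comp continuous_fst).prodMk (continuous_toAdd.comp continuous_snd)
  have hL' : IsClosed (L' : Set (Multiplicative ℝ × Multiplicative H)) := hL.preimage hcont
  have := h2 L' hL'
  apply hLs
  let f : L' → L := fun x => ⟨(Multiplicative.toAdd (x : Multiplicative ℝ × Multiplicative H).1,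
    Multiplicative.toAdd (x : Multiplicative ℝ × Multiplicative H).2), x.2⟩
  have hf : Continuous f := Continuous.subtype_mk (hcont.comp continuous_subtype_val) _
  have hfs : Function.Surjective f := fun y =>
    ⟨⟨(Multiplicative.ofAdd (y : ℝ × H).1, Multiplicative.ofAdd (y : ℝ × H).2), y.2⟩, rfl⟩
  exact hfs.denseRange.separableSpace hf

end Pool.Agent.Results.MP_67c6ba_gt.RealNotSSep
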